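import Pool.Agent.T5h70.NH.All

/-!
# The norm hierarchy for moment operators of random quantum channels (MP_a4cf75_mp, Q1)

For all `d, d_E, t, k ≥ 1`:
`1 = ‖T_Dep‖² ≤ N_{t,k}(d, d_E) ≤ ‖T_Haar‖²` (squared Hilbert-Schmidt norms of the `t`-th moment
operators, `N_{t,k}` that of the `k`-th power of the moment operator of `cHaar(d, d_E)`).

Route. (1) With `T = T_cHaar` and `ℓ(M) = ∫ Tr(V^{⊗t}) Tr(M V^{⊗t *}) dV` over `U(d)`: the iterated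
Kadison-Schwarz inequality and the invariance of Haar measure give `N_{t,k} ≤ Re ℓ(T^k 1)`, and `T^k 1`
is an average of `Y^{⊗t}` with `Y ≥ 0`, `Tr Y = d`. (2) For such `Y`,
`Re ∫ Tr(V Y)^t conj(Tr V)^t dV ≤ ∫ |Tr V|^{2t} dV = ‖T_Haar‖²`: for `Y = diag x` the Schwinger-Dyson
equations on `U(d)` give
`Δ(x) ∫ (∑ x_i V_ii)^t conj(Tr V)^t dV = (t!)² ∏_{j<d} j! ∑_l Δ(l) x^l / (l!)²`, and a Chebyshev type
inequality for the alternants `det (x_i^{l_j})` bounds it by `(∑ x_i / d)^t ∫ |Tr V|^{2t} dV`.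
-/

set_option autoImplicit false

open Matrix MeasureTheory

namespace Pool.Agent.Results.MP_a4cf75_mp.NormHierarchy

open Pool.Agent.V11219.MomentOp Pool.Agent.T5h70.NH

/-- **Q1** of `MP_a4cf75_mp`, affirmative for all parameters. -/
theorem result : ∀ d dE t k : ℕ, 1 ≤ d → 1 ≤ dE → 1 ≤ t → 1 ≤ k →
    ∀ ψ : Fin dE → ℂ, ∑ x, ‖ψ x‖ ^ 2 = 1 →
      hsNormSq (depT d t) = 1 ∧ 1 ≤ N t k d dE ψ ∧ N t k d dE ψ ≤ hsNormSq (haarT d t) := by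
  intro d dE t k hd _ _ hk ψ hψ
  have k1 : K1 d t := K1.t_K1 d t
  have k2 : K2 d dE t ψ := K2.t_K2 d dE t ψ hψ
  have k3 : K3 d dE t ψ := K3.t_K3 d dE t ψ
  have k4 : K4 d dE t ψ := K4.t_K4 d dE t ψ k1 k2 k3 KS.t_KS
  have k5 : K5 d t := K5.t_K5 d t k1
  have k6 : K6 d dE t ψ := K6.t_K6 d dE t ψ k1 k2 (All.a6 d)
  have k7 : K7 d t := K7.t_K7 d t k1 k5
  have k8 : K8 d dE t ψ := K8.t_K8 d dE t hd ψ k2
  exact final k3 k4 k5 k6 k7 k8 k hk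

end Pool.Agent.Results.MP_a4cf75_mp.NormHierarchy
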